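import Pool.Agent.W541.DL.Stm

/-! Subtask DL-TAIL for helper541: upper tail bound for the directed landscape. -/

namespace Pool.Agent.W804.DL.TAIL

open MeasureTheory ProbabilityTheory Filter Topology
open Pool.Agent.W541.DL

variable {Ω : Type} [MeasurableSpace Ω] {P : Measure Ω} {L : Ω → C(R4, ℝ)}

lemma meas_sig {a b : ℝ} {x s y t : ℝ} (hs : a ≤ s) (ht : t ≤ b) (hst : s < t) :
    Measurable[sig L a b] (fun ω => val (L ω) x s y t) := by
  have h1 : (fun ω => val (L ω) x s y t) = fun ω => L ω ⟨((x, s), (y, t)), hst⟩ := by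
    funext ω
    simp [val, hst]
  rw [h1]
  have h2 : Measurable[MeasurableSpace.comap
      (fun ω => L ω (⟨((x, s), (y, t)), hst⟩ : R4)) inferInstance]
      (fun ω => L ω ⟨((x, s), (y, t)), hst⟩) := comap_measurable _
  refine h2.mono ?_ le_rfl
  exact le_iSup (fun p : {p : R4 // a ≤ p.1.1.2 ∧ p.1.2.2 ≤ b} =>
    MeasurableSpace.comap (fun ω => L ω p.1) inferInstance) ⟨⟨((x, s), (y, t)), hst⟩, hs, ht⟩

lemma meas_val (hL : IsDirectedLandscape P L) {x s y t : ℝ} (hst : s < t) :
    Measurable (fun ω => val (L ω) x s y t) := by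
  have h1 : (fun ω => val (L ω) x s y t) = fun ω => L ω ⟨((x, s), (y, t)), hst⟩ := by
    funext ω
    simp [val, hst]
  rw [h1]
  exact hL.meas _

lemma sig_le (hL : IsDirectedLandscape P L) (a b : ℝ) : sig L a b ≤ ‹MeasurableSpace Ω› := by
  refine iSup_le ?_
  intro p
  exact (hL.meas p.1).comap_le

/-- the law of the increments -/
lemma law (hLAW : S_LAWL) (hL : IsDirectedLandscape P L) {s t : ℝ} (hst : s < t) (a : ℝ) :
    P {ω | a ≤ val (L ω) 0 s 0 t} = P {ω | a ≤ (t - s) ^ ((1 : ℝ) / 3) * val (L ω) 0 0 0 1} := by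
  have h := hLAW Ω P L hL 0 0 s t hst
  have h2 := h.measure_mem_eq (s := Set.Ici a) measurableSet_Ici
  simpa [Set.preimage, Set.mem_Ici] using h2

lemma claim (hLAW : S_LAWL) (hL : IsDirectedLandscape P L) {c : ℝ} (hc : 0 ≤ c)
    (hc3 : 3 / 4 ≤ P.real {ω | -c ≤ val (L ω) 0 0 0 1}) {T : ℕ} (hT : 1 ≤ T) {r : ℝ}
    (hTG : T * P.real {ω | r ≤ val (L ω) 0 0 0 1} ≤ 1 / 4) :
    (3 / 8) * T * P.real {ω | r ≤ val (L ω) 0 0 0 1} ≤
      P.real {ω | r / (T : ℝ) ^ ((1 : ℝ) / 3) - 2 * c ≤ val (L ω) 0 0 0 1} := by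
  haveI := hL.prob
  set G : ℝ := P.real {ω | r ≤ val (L ω) 0 0 0 1} with hG
  have hG0 : 0 ≤ G := measureReal_nonneg
  set κ : ℝ := (T : ℝ) ^ ((1 : ℝ) / 3) with hκ
  have hTpos : (0 : ℝ) < T := by exact_mod_cast hT
  have hκpos : 0 < κ := Real.rpow_pos_of_pos hTpos _
  -- lower tails
  have hlow : ∀ s t : ℝ, s < t → t - s ≤ T →
      3 / 4 ≤ P.real {ω | -(c * κ) ≤ val (L ω) 0 s 0 t} := by
    intro s t hst hle
    have h1 : P.real {ω | -(c * κ) ≤ val (L ω) 0 s 0 t} =
        P.real {ω | -(c * κ) ≤ (t - s) ^ ((1 : ℝ) / 3) * val (L ω) 0 0 0 1} := by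
      simp only [Measure.real]
      rw [law hLAW hL hst]
    rw [h1]
    refine hc3.trans (measureReal_mono ?_)
    intro ω hω
    simp only [Set.mem_setOf_eq] at hω ⊢
    have hp : 0 ≤ (t - s) ^ ((1 : ℝ) / 3) := Real.rpow_nonneg (by linarith) _
    have hle' : (t - s) ^ ((1 : ℝ) / 3) ≤ κ :=
      Real.rpow_le_rpow (by linarith) hle (by norm_num)
    have e1 : -(c * κ) ≤ -(c * (t - s) ^ ((1 : ℝ) / 3)) := by
      have := mul_le_mul_of_nonneg_left hle' hc
      linarith
    have e2 : (t - s) ^ ((1 : ℝ) / 3) * (-c) ≤ (t - s) ^ ((1 : ℝ) / 3) * val (L ω) 0 0 0 1 :=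
      mul_le_mul_of_nonneg_left hω hp
    linarith
  -- the events
  set A : ℕ → Set Ω := fun i => {ω | r ≤ val (L ω) 0 i 0 (i + 1)} with hA
  set B : ℕ → Set Ω := fun i => {ω | i = 0 ∨ -(c * κ) ≤ val (L ω) 0 0 0 i} with hB
  set C : ℕ → Set Ω := fun i => {ω | i + 1 = T ∨ -(c * κ) ≤ val (L ω) 0 (i + 1) 0 T} with hC
  set N : ℕ → Set Ω := fun i => {ω | ∀ k < i, val (L ω) 0 k 0 (k + 1) < r} with hN
  have hlt : ∀ i : ℕ, (i : ℝ) < i + 1 := fun i => by linarith
  -- measurability in the sigma algebras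
  have mA : ∀ i : ℕ, MeasurableSet[sig L i (i + 1)] (A i) := by
    intro i
    exact measurableSet_le measurable_const (meas_sig le_rfl le_rfl (hlt i))
  have mB : ∀ i : ℕ, MeasurableSet[sig L 0 i] (B i) := by
    intro i
    rcases Nat.eq_zero_or_pos i with h0 | h0
    · subst h0
      have : B 0 = Set.univ := by
        ext ω
        simp [hB]
      rw [this]
      exact MeasurableSet.univ
    · have : B i = {ω | -(c * κ) ≤ val (L ω) 0 0 0 i} := by
        ext ω
        simp [hB, h0.ne']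
      rw [this]
      exact measurableSet_le measurable_const
        (meas_sig le_rfl le_rfl (by exact_mod_cast h0))
  have mC : ∀ i : ℕ, i < T → MeasurableSet[sig L (i + 1) T] (C i) := by
    intro i hi
    by_cases h0 : i + 1 = T
    · have : C i = Set.univ := by
        ext ω
        simp [hC, h0]
      rw [this]
      exact MeasurableSet.univ
    · have : C i = {ω | -(c * κ) ≤ val (L ω) 0 (i + 1) 0 T} := by
        ext ω
        simp [hC, h0]
      rw [this]
      have h1 : i + 1 < T := lt_of_le_of_ne hi h0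
      exact measurableSet_le measurable_const
        (meas_sig le_rfl le_rfl (by exact_mod_cast h1))
  have mN : ∀ i : ℕ, MeasurableSet[sig L 0 i] (N i) := by
    intro i
    have : N i = ⋂ k ∈ Finset.range i, {ω | val (L ω) 0 k 0 (k + 1) < r} := by
      ext ω
      simp [hN]
    rw [this]
    refine Finset.measurableSet_biInter _ ?_
    intro k hk
    rw [Finset.mem_range] at hk
    have h1 : ((k : ℝ) + 1) ≤ i := by exact_mod_cast hk
    exact measurableSet_lt (meas_sig (Nat.cast_nonneg k) h1 (hlt k)) measurable_const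
  -- probabilities
  have pA : ∀ i : ℕ, P.real (A i) = G := by
    intro i
    simp only [hA, hG, Measure.real]
    rw [law hLAW hL (hlt i)]
    simp
  have pB : ∀ i : ℕ, i < T → 3 / 4 ≤ P.real (B i) := by
    intro i hi
    rcases Nat.eq_zero_or_pos i with h0 | h0
    · subst h0
      have : B 0 = Set.univ := by
        ext ω
        simp [hB]
      rw [this]
      simp
      norm_num
    · have : B i = {ω | -(c * κ) ≤ val (L ω) 0 0 0 i} := by
        ext ω
        simp [hB, h0.ne']
      rw [this]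
      refine hlow 0 i (by exact_mod_cast h0) ?_
      rw [sub_zero]
      exact_mod_cast hi.le
  have pC : ∀ i : ℕ, i < T → 3 / 4 ≤ P.real (C i) := by
    intro i hi
    by_cases h0 : i + 1 = T
    · have : C i = Set.univ := by
        ext ω
        simp [hC, h0]
      rw [this]
      simp
      norm_num
    · have : C i = {ω | -(c * κ) ≤ val (L ω) 0 (i + 1) 0 T} := by
        ext ω
        simp [hC, h0]
      rw [this]
      have h1 : i + 1 < T := lt_of_le_of_ne hi h0
      refine hlow (i + 1) T (by exact_mod_cast h1) ?_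
      have : (0 : ℝ) ≤ i := Nat.cast_nonneg i
      linarith
  have pN : ∀ i : ℕ, P.real (N i)ᶜ ≤ i * G := by
    intro i
    have h1 : (N i)ᶜ = ⋃ k ∈ Finset.range i, A k := by
      ext ω
      simp [hN, hA]
    rw [h1]
    refine (measureReal_biUnion_finset_le (μ := P) (Finset.range i) A).trans ?_
    simp [pA]
  have pD : ∀ i : ℕ, i < T → 1 / 2 ≤ P.real (B i ∩ N i) := by
    intro i hi
    have h1 : B i ⊆ (B i ∩ N i) ∪ (N i)ᶜ := by
      intro ω hω
      by_cases h : ω ∈ N i
      · exact Or.inl ⟨hω, h⟩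
      · exact Or.inr h
    have h2 : P.real (B i) ≤ P.real (B i ∩ N i) + P.real (N i)ᶜ :=
      (measureReal_mono h1).trans (measureReal_union_le _ _)
    have h3 : (i : ℝ) * G ≤ 1 / 4 := by
      refine le_trans ?_ hTG
      exact mul_le_mul_of_nonneg_right (by exact_mod_cast hi.le) hG0
    have := pB i hi
    have := pN i
    linarith
  -- independence
  set F : ℕ → Set Ω := fun i => (B i ∩ N i) ∩ (A i ∩ C i) with hF
  have pF : ∀ i : ℕ, i < T → 3 / 8 * G ≤ P.real (F i) := by
    intro i hi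
    have hind := hL.indep 3 ![0, (i : ℝ), (i : ℝ) + 1] ![(i : ℝ), (i : ℝ) + 1, (T : ℝ)] (by
      intro a b hab
      fin_cases a <;> fin_cases b <;> simp_all)
    have h3 := hind.meas_iInter (s := ![B i ∩ N i, A i, C i]) (by
      intro k
      fin_cases k
      · exact MeasurableSet.inter (mB i) (mN i)
      · exact mA i
      · exact mC i hi)
    have h4 : (⋂ k, (![B i ∩ N i, A i, C i] : Fin 3 → Set Ω) k) = F i := by
      ext ω
      simp [Set.mem_iInter, Fin.forall_fin_succ, hF]
      try tauto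
    rw [h4] at h3
    have h5 : P.real (F i) = P.real (B i ∩ N i) * (P.real (A i) * P.real (C i)) := by
      simp only [Measure.real]
      rw [h3]
      simp [Fin.prod_univ_succ, ENNReal.toReal_mul]
    rw [h5, pA]
    have d1 := pD i hi
    have d2 := pC i hi
    have d3 : 1 / 2 * (G * (3 / 4)) ≤ P.real (B i ∩ N i) * (G * P.real (C i)) := by
      apply mul_le_mul d1 _ (by positivity) (by linarith)
      exact mul_le_mul_of_nonneg_left d2 hG0
    linarith
  have mF : ∀ i : ℕ, i < T → MeasurableSet (F i) := by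
    intro i hi
    have a1 := sig_le hL 0 i _ (mB i)
    have a2 := sig_le hL 0 i _ (mN i)
    have a3 := sig_le hL i (i + 1) _ (mA i)
    have a4 := sig_le hL (i + 1) T _ (mC i hi)
    exact (a1.inter a2).inter (a3.inter a4)
  have hdisj : Set.PairwiseDisjoint (Finset.range T : Set ℕ) F := by
    have key : ∀ i j : ℕ, i < j → Disjoint (F i) (F j) := by
      intro i j hij
      rw [Set.disjoint_left]
      intro ω h1 h2
      have e1 : r ≤ val (L ω) 0 i 0 (i + 1) := h1.2.1
      have e2 : val (L ω) 0 i 0 (i + 1) < r := h2.1.2 i hij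
      linarith
    intro i _ j _ hij
    rcases lt_or_gt_of_ne hij with h | h
    · exact key i j h
    · exact (key j i h).symm
  have hsum : P.real (⋃ i ∈ Finset.range T, F i) = ∑ i ∈ Finset.range T, P.real (F i) := by
    refine measureReal_biUnion_finset hdisj ?_
    intro i hi
    exact mF i (Finset.mem_range.1 hi)
  have hle : (3 / 8) * T * G ≤ P.real (⋃ i ∈ Finset.range T, F i) := by
    rw [hsum]
    have : ∑ i ∈ Finset.range T, (3 / 8 * G) ≤ ∑ i ∈ Finset.range T, P.real (F i) :=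
      Finset.sum_le_sum fun i hi => pF i (Finset.mem_range.1 hi)
    simp only [Finset.sum_const, Finset.card_range, nsmul_eq_mul] at this
    linarith
  refine hle.trans ?_
  -- superadditivity
  have hfin : P.real {ω | r - 2 * (c * κ) ≤ val (L ω) 0 0 0 T} =
      P.real {ω | r / κ - 2 * c ≤ val (L ω) 0 0 0 1} := by
    simp only [Measure.real]
    rw [law hLAW hL (show (0 : ℝ) < T from hTpos)]
    congr 2
    ext ω
    simp only [Set.mem_setOf_eq, sub_zero]
    rw [← hκ]
    constructor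
    · intro h
      have h1 : (r - 2 * (c * κ)) / κ ≤ val (L ω) 0 0 0 1 := by
        rw [div_le_iff₀ hκpos]
        linarith
      have h2 : (r - 2 * (c * κ)) / κ = r / κ - 2 * c := by
        field_simp
      linarith
    · intro h
      have h2 : (r - 2 * (c * κ)) / κ = r / κ - 2 * c := by
        field_simp
      have h1 : (r - 2 * (c * κ)) / κ ≤ val (L ω) 0 0 0 1 := by linarith
      rw [div_le_iff₀ hκpos] at h1
      linarith
  rw [← hfin]
  have hae : (⋃ i ∈ Finset.range T, F i) ≤ᵐ[P] {ω | r - 2 * (c * κ) ≤ val (L ω) 0 0 0 T} := by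
    filter_upwards [hL.comp] with ω hω hmem
    have hmem' : ω ∈ ⋃ i ∈ Finset.range T, F i := hmem
    simp only [Set.mem_iUnion, Finset.mem_range] at hmem'
    obtain ⟨i, hi, ⟨hb, _⟩, ha, hcc⟩ := hmem'
    have hck : 0 ≤ c * κ := mul_nonneg hc hκpos.le
    have sup : ∀ a b d : ℝ, a < b → b < d →
        val (L ω) 0 a 0 b + val (L ω) 0 b 0 d ≤ val (L ω) 0 a 0 d := by
      intro a b d hab hbd
      exact (hω 0 0 a b d hab hbd).2 ⟨0, rfl⟩
    have ha' : r ≤ val (L ω) 0 i 0 (i + 1) := ha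
    have step1 : r - c * κ ≤ val (L ω) 0 0 0 (i + 1) := by
      rcases Nat.eq_zero_or_pos i with h0 | h0
      · subst h0
        simp only [Nat.cast_zero] at ha' ⊢
        linarith
      · have hb' : -(c * κ) ≤ val (L ω) 0 0 0 i := by
          rcases hb with h | h
          · exact absurd h h0.ne'
          · exact h
        have := sup 0 i (i + 1) (by exact_mod_cast h0) (hlt i)
        linarith
    show r - 2 * (c * κ) ≤ val (L ω) 0 0 0 T
    by_cases h0 : i + 1 = T
    · have : ((i : ℝ) + 1) = T := by exact_mod_cast h0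
      rw [this] at step1
      linarith
    · have hcc' : -(c * κ) ≤ val (L ω) 0 (i + 1) 0 T := by
        rcases hcc with h | h
        · exact absurd h h0
        · exact h
      have h1 : i + 1 < T := lt_of_le_of_ne hi h0
      have := sup 0 (i + 1) T (by positivity) (by exact_mod_cast h1)
      linarith
  exact ENNReal.toReal_mono (measure_ne_top _ _) (measure_mono_ae hae)

lemma exists_low (hL : IsDirectedLandscape P L) :
    ∃ c : ℝ, 0 ≤ c ∧ 3 / 4 ≤ P.real {ω | -c ≤ val (L ω) 0 0 0 1} := by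
  haveI := hL.prob
  have hm := meas_val hL (x := 0) (y := 0) (show (0 : ℝ) < 1 by norm_num)
  have h1 : Tendsto (fun n : ℕ => P {ω | -(n : ℝ) ≤ val (L ω) 0 0 0 1}) atTop
      (𝓝 (P (⋃ n : ℕ, {ω | -(n : ℝ) ≤ val (L ω) 0 0 0 1}))) := by
    refine tendsto_measure_iUnion_atTop ?_
    intro a b hab ω hω
    simp only [Set.mem_setOf_eq] at hω ⊢
    have : (a : ℝ) ≤ b := by exact_mod_cast hab
    linarith
  have h2 : (⋃ n : ℕ, {ω | -(n : ℝ) ≤ val (L ω) 0 0 0 1}) = Set.univ := by
    ext ω
    simp only [Set.mem_iUnion, Set.mem_setOf_eq, Set.mem_univ, iff_true]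
    obtain ⟨n, hn⟩ := exists_nat_ge (-(val (L ω) 0 0 0 1))
    exact ⟨n, by linarith⟩
  rw [h2, measure_univ] at h1
  have h3 : Tendsto (fun n : ℕ => P.real {ω | -(n : ℝ) ≤ val (L ω) 0 0 0 1}) atTop (𝓝 1) := by
    have := (ENNReal.tendsto_toReal (ENNReal.one_ne_top)).comp h1
    simpa [Measure.real, Function.comp_def] using this
  obtain ⟨n, hn⟩ := (h3.eventually (lt_mem_nhds (show (3 / 4 : ℝ) < 1 by norm_num))).exists
  exact ⟨n, Nat.cast_nonneg n, hn.le⟩

lemma exists_high (hL : IsDirectedLandscape P L) :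
    ∃ M : ℝ, 0 < M ∧ P.real {ω | M ≤ val (L ω) 0 0 0 1} < 3 / 64 := by
  haveI := hL.prob
  have hm := meas_val hL (x := 0) (y := 0) (show (0 : ℝ) < 1 by norm_num)
  have h1 : Tendsto (fun n : ℕ => P {ω | (n : ℝ) ≤ val (L ω) 0 0 0 1}) atTop
      (𝓝 (P (⋂ n : ℕ, {ω | (n : ℝ) ≤ val (L ω) 0 0 0 1}))) := by
    refine tendsto_measure_iInter_atTop (fun n => ?_) ?_ ⟨0, measure_ne_top _ _⟩
    · exact (measurableSet_le measurable_const hm).nullMeasurableSet
    · intro a b hab ω hω
      simp only [Set.mem_setOf_eq] at hω ⊢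
      have : (a : ℝ) ≤ b := by exact_mod_cast hab
      linarith
  have h2 : (⋂ n : ℕ, {ω | (n : ℝ) ≤ val (L ω) 0 0 0 1}) = ∅ := by
    ext ω
    simp only [Set.mem_iInter, Set.mem_setOf_eq, Set.mem_empty_iff_false, iff_false, not_forall,
      not_le]
    exact exists_nat_gt _
  rw [h2, measure_empty] at h1
  have h3 : Tendsto (fun n : ℕ => P.real {ω | (n : ℝ) ≤ val (L ω) 0 0 0 1}) atTop (𝓝 0) := by
    have := (ENNReal.tendsto_toReal (ENNReal.zero_ne_top)).comp h1
    simpa [Measure.real, Function.comp_def] using this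
  obtain ⟨n, hn, hn1⟩ := ((h3.eventually (gt_mem_nhds (show (0 : ℝ) < 3 / 64 by norm_num))).and
    (eventually_ge_atTop 1)).exists
  exact ⟨n, by exact_mod_cast hn1, hn⟩

theorem main (hLAW : S_LAWL) : Pool.Agent.W541.DL.S_TAIL := by
  intro Ω _ P L hL
  haveI := hL.prob
  obtain ⟨c, hc, hc3⟩ := exists_low hL
  obtain ⟨M, hM, hM3⟩ := exists_high hL
  set G : ℝ → ℝ := fun r => P.real {ω | r ≤ val (L ω) 0 0 0 1} with hG
  have hG0 : ∀ r, 0 ≤ G r := fun r => measureReal_nonneg
  have hG1 : ∀ r, G r ≤ 1 := fun r => measureReal_le_one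
  have hanti : ∀ r r', r ≤ r' → G r' ≤ G r := by
    intro r r' h
    refine measureReal_mono ?_
    intro ω hω
    simp only [Set.mem_setOf_eq] at hω ⊢
    linarith
  set K : ℝ := M + 2 * c with hK
  have hKpos : 0 < K := by positivity
  refine ⟨K ^ 3, by positivity, ?_⟩
  intro r hr
  show G r ≤ K ^ 3 / r ^ 3
  have hr3 : 0 < r ^ 3 := by positivity
  rw [le_div_iff₀ hr3]
  rcases lt_or_ge r K with hrK | hrK
  · have h1 : r ^ 3 ≤ K ^ 3 := pow_le_pow_left₀ hr.le hrK.le 3
    nlinarith [hG1 r, hG0 r]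
  · have hone : 1 ≤ (r / K) ^ 3 := by
      have : 1 ≤ r / K := by rwa [le_div_iff₀ hKpos, one_mul]
      exact one_le_pow₀ this
    set T : ℕ := ⌊(r / K) ^ 3⌋₊ with hT
    have hT1 : 1 ≤ T := by
      rw [hT]
      exact Nat.le_floor (by exact_mod_cast hone)
    have hTle : (T : ℝ) ≤ (r / K) ^ 3 := Nat.floor_le (by positivity)
    have hTlt : (r / K) ^ 3 < T + 1 := Nat.lt_floor_add_one _
    have hGr : G r < 3 / 64 := by
      refine lt_of_le_of_lt (hanti M r ?_) hM3
      linarith
    have hTG : (T : ℝ) * G r ≤ 1 / 4 := by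
      by_contra hcon
      push Not at hcon
      have hex : ∃ n : ℕ, 1 / 8 < (n : ℝ) * G r := ⟨T, by linarith⟩
      classical
      set T' := Nat.find hex with hT'
      have h1 : 1 / 8 < (T' : ℝ) * G r := Nat.find_spec hex
      have h2 : T' ≤ T := Nat.find_min' hex (by linarith)
      have h3 : 1 ≤ T' := by
        rcases Nat.eq_zero_or_pos T' with h | h
        · rw [h] at h1
          norm_num at h1
        · exact h
      have h4 : ((T' - 1 : ℕ) : ℝ) * G r ≤ 1 / 8 := by
        have := Nat.find_min hex (m := T' - 1) (by omega)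
        exact not_lt.1 this
      have h5 : (T' : ℝ) * G r ≤ 1 / 4 := by
        rw [Nat.cast_sub h3] at h4
        push_cast at h4
        nlinarith
      have h6 := claim hLAW hL hc hc3 h3 h5
      have hT'pos : (0 : ℝ) < T' := by exact_mod_cast h3
      have h7 : K ≤ r / (T' : ℝ) ^ ((1 : ℝ) / 3) := by
        rw [le_div_iff₀ (Real.rpow_pos_of_pos hT'pos _)]
        have e1 : (T' : ℝ) ^ ((1 : ℝ) / 3) ≤ r / K := by
          have e2 : (T' : ℝ) ≤ (r / K) ^ 3 := le_trans (by exact_mod_cast h2) hTle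
          have e3 : (T' : ℝ) ^ ((1 : ℝ) / 3) ≤ ((r / K) ^ 3) ^ ((1 : ℝ) / 3) :=
            Real.rpow_le_rpow hT'pos.le e2 (by norm_num)
          have e4 : ((r / K) ^ 3) ^ ((1 : ℝ) / 3) = r / K := by
            rw [← Real.rpow_natCast, ← Real.rpow_mul (by positivity)]
            norm_num
          rwa [e4] at e3
        calc K * (T' : ℝ) ^ ((1 : ℝ) / 3) ≤ K * (r / K) := mul_le_mul_of_nonneg_left e1 hKpos.le
          _ = r := by field_simp
      have h8 : G (r / (T' : ℝ) ^ ((1 : ℝ) / 3) - 2 * c) ≤ G M := by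
        apply hanti
        linarith
      have h9 : G M < 3 / 64 := hM3
      have h10 : 3 / 8 * (T' : ℝ) * G r ≤ G (r / (T' : ℝ) ^ ((1 : ℝ) / 3) - 2 * c) := h6
      nlinarith
    have hThalf : (r / K) ^ 3 ≤ 2 * T := by
      have : (1 : ℝ) ≤ T := by exact_mod_cast hT1
      linarith
    have e5 : (r / K) ^ 3 * K ^ 3 = r ^ 3 := by
      field_simp
    have hK3 : 0 < K ^ 3 := by positivity
    calc G r * r ^ 3 = G r * (r / K) ^ 3 * K ^ 3 := by rw [← e5]; ring
      _ ≤ G r * (2 * T) * K ^ 3 := by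
          apply mul_le_mul_of_nonneg_right _ hK3.le
          exact mul_le_mul_of_nonneg_left hThalf (hG0 r)
      _ ≤ K ^ 3 := by nlinarith

end Pool.Agent.W804.DL.TAIL
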